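import Pool.Agent.Q44.Appr
import Pool.Agent.Results.MP_4eb8d9_nt.FewExceptions

/-!
# The Lang–Waldschmidt inequality for all products whose height is given by the continued fraction of a real number

For all irrational numbers `α` outside a set of Hausdorff dimension at most `3 / 4`, in particular for almost every
real number, and all integers `(u, v) ≠ (0, 0)`, with finitely many exceptions for every `(u, v)` the numbers
`h = |u p + v q|`, `p / q` a convergent of the continued fraction of `α`, have the following property: all products
`Λ = a_1 ^ b_1 ⋯ a_m ^ b_m ≠ 1` of any number of powers of nonzero integers (with nonzero exponents of any size) which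
are rational numbers of height `h` satisfy `|Λ - 1| ≥ max |b_i| / (∏ |b_i| |a_i|) ^ (1 + ε)` for all `ε ≥ 0`, that is,
the inequality of the question with the constant `C(ε) = 1`, and even with `ε = 0`. The same for approximations of
other qualities and of points of `ℝ ^ d`, and for the values of polynomials at the denominator and the numerators.
-/

set_option autoImplicit false

namespace Pool.Agent.Results.MP_4eb8d9_nt.GoodApproximations

open Pool.Agent.Q44.CF

/-- the height `max (|P|, Q)` of the rational number `P / Q` in lowest terms -/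
def height (L : ℚ) : ℕ := max L.num.natAbs L.den

/-- For all `ε ≥ 0` and all representations `L = ∏ a_i ^ b_i`, with any number of factors, by
nonzero integers `a_i`, `b_i`, the inequality of Lang and Waldschmidt holds with the constant `1` -/
def Holds (L : ℚ) : Prop :=
  ∀ (ε : ℝ) (m : ℕ) (a b : Fin m → ℤ), 0 ≤ ε → (∀ i, a i ≠ 0) → (∀ i, b i ≠ 0) →
    ∏ i, ((a i : ℚ) ^ (b i)) = L →
    ((Finset.univ.sup fun i => (b i).natAbs : ℕ) : ℝ) /
      ((∏ i, |((b i : ℤ) : ℝ)|) * (∏ i, |((a i : ℤ) : ℝ)|)) ^ (1 + ε) ≤ |(L : ℝ) - 1|

/-- **Theorem.** The inequality of Lang and Waldschmidt, with `C(ε) = 1` and all `ε ≥ 0`, holds for all products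
`Λ ≠ 1` of powers of integers whose height is given by good rational approximations of real numbers, in the sense of
`AtApproximations`, with the exponent `1 / 2`. -/
theorem result : AtApproximations (1 / 2) (fun h : ℕ => ∀ L : ℚ, L ≠ 1 → height L = h → Holds L) := by
  refine at_of (B := fun (h : ℕ) => ∃ L : ℚ, L ≠ 1 ∧ height L = h ∧
    FewExceptions.Fails L) (by norm_num) ?_ ?_
  · refine Pool.Agent.Q21.DW.ps_of (T := ℚ) (fun X => FewExceptions.Exceptional X) height _ _ ?_ ?_
    · intro ε hε
      obtain ⟨C, hC⟩ := FewExceptions.result ε hε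
      exact ⟨C, hC⟩
    · rintro h N hh hhN ⟨L, hL, hLh, hF⟩
      refine ⟨L, ⟨hL, ?_, ?_, hF⟩, hLh⟩
      · exact (le_max_left _ _).trans (hLh.le.trans hhN)
      · exact (le_max_right _ _).trans (hLh.le.trans hhN)
  · intro h hB
    push Not at hB
    obtain ⟨L, hL, hLh, hH⟩ := hB
    unfold Holds at hH
    push Not at hH
    obtain ⟨ε, m, a, b, hε, ha, hb, hab, hcon⟩ := hH
    exact ⟨L, hL, hLh, ε, m, a, b, hε, ha, hb, hab, hcon⟩

end Pool.Agent.Results.MP_4eb8d9_nt.GoodApproximations
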