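import Mathlib
import Pool.Agent.Q4.Hyp.PairMain

set_option autoImplicit false

/-!
# The Lang–Waldschmidt inequality for `X ^ a Y ^ (-b)`, with a relation between `X` and `Y`

`X` and `Y` run over all pairs of nonzero integers for which `P(X, Y)` (for a fixed `P ∈ ℤ[X, Y]`) is
a value `F(q, x₁, …, xₙ)` of a polynomial `F` at an integral point near the ray spanned by
`(1, θ₁, …, θₙ)`, for algebraic numbers `θᵢ`. For instance `X Y = F(q, x₁, …, xₙ)`.

The proof: if `X ^ a Y ^ (-b)` is close to `1`, then `X`, `Y` are close to `ρ ^ b`, `ρ ^ a` for a root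
`ρ` of the equation `P(ρ ^ b, ρ ^ a) = F(q, x)`; the subspace theorem shows that `X` and `Y` are
values of polynomials at `(q, x)`; then Davenport's inequality for polynomials and a lower bound for
the values of polynomials at these points.
-/

namespace Pool.Agent.Results.MP_4eb8d9_nt.PairsNearRays

open MvPolynomial

/-- the point `(q, x₁, …, xₙ)`; the variable `none` is the one of `q` -/
def point {n : ℕ} (q : ℕ) (x : Fin n → ℤ) : Option (Fin n) → ℤ := fun o => o.elim (q : ℤ) x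

/-- the integral points `(q, x₁, …, xₙ)` near the ray spanned by `(1, θ₁, …, θₙ)`: `q = u w` where `u`
is composed of primes of `S` and `w ≤ q ^ η`, and `|θₛ q - xₛ| ≤ q ^ η` for all `s` -/
def NearRay {n : ℕ} (S : Finset ℕ) (θ : Fin n → ℝ) (η : ℝ) (q : ℕ) (x : Fin n → ℤ) : Prop :=
  (∃ u w : ℕ, q = u * w ∧ u.primeFactors ⊆ S ∧ (w : ℝ) ≤ (q : ℝ) ^ η) ∧
  ∀ s, |θ s * q - x s| ≤ (q : ℝ) ^ η

/-- the value at `(1, θ)` of the homogeneous part of degree `m` -/
noncomputable def atInfinity {n : ℕ} (θ : Fin n → ℝ) (m : ℕ) (F : MvPolynomial (Option (Fin n)) ℤ) : ℝ :=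
  aeval (fun o : Option (Fin n) => (o.elim 1 θ : ℝ)) (homogeneousComponent m F)

/-- the value `P(X, Y)` -/
noncomputable def value (P : MvPolynomial (Fin 2) ℤ) (X Y : ℤ) : ℤ :=
  eval (fun i => if i = 0 then X else Y) P

/-- the polynomial `P(T ^ b, T ^ a)` -/
noncomputable def onCurve (a b : ℕ) (P : MvPolynomial (Fin 2) ℤ) : Polynomial ℤ :=
  aeval (fun i : Fin 2 => (if i = 0 then Polynomial.X ^ b else Polynomial.X ^ a : Polynomial ℤ)) P

/-- Let `a, b` be coprime positive integers, `P ∈ ℤ[X, Y]`, and let `w > 0` be the degree of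
`P(T ^ b, T ^ a)`; suppose that `b i + a k ≤ w` for all monomials `Xⁱ Yᵏ` of `P`. Let `j > 0`, let
`1, θ₁, …, θₙ` be real algebraic numbers, linearly independent over `ℚ`, and `S` a finite set of
primes. Let `F ∈ ℤ[X₀, …, Xₙ]` have degree at most `w j`, and suppose that the homogeneous part of
degree `w j` of `F` does not vanish at `(1, θ)`. For every `ε > 0` there are `η > 0` and `N` such that
for all integral points `x = (q, x₁, …, xₙ)` near the ray with `q ≥ N` and all nonzero integers `X`,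
`Y` with `P(X, Y) = F(x)` and `Λ = X ^ a Y ^ (-b) ≠ 1`: `|Λ - 1| |X| |Y| > q ^ (1 - ε)`. -/
theorem result (a b : ℕ) (ha : 0 < a) (hb : 0 < b) (hab : Nat.Coprime a b)
    (P : MvPolynomial (Fin 2) ℤ) (hw : 0 < (onCurve a b P).natDegree)
    (hP : ∀ m ∈ P.support, b * m 0 + a * m 1 ≤ (onCurve a b P).natDegree)
    (n : ℕ) (θ : Fin n → ℝ) (halg : ∀ s, IsAlgebraic ℚ (θ s))
    (hind : LinearIndependent ℚ (fun o : Option (Fin n) => (o.elim 1 θ : ℝ))) (S : Finset ℕ)
    (F : MvPolynomial (Option (Fin n)) ℤ) (j : ℕ) (hj : 0 < j)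
    (hF : F.totalDegree ≤ (onCurve a b P).natDegree * j)
    (htop : atInfinity θ ((onCurve a b P).natDegree * j) F ≠ 0) (ε : ℝ) (hε : 0 < ε) :
    ∃ (η : ℝ) (N : ℕ), 0 < η ∧ ∀ q ≥ N, ∀ x, NearRay S θ η q x → ∀ X Y : ℤ, X ≠ 0 → Y ≠ 0 →
      value P X Y = eval (point q x) F → (X : ℝ) ^ a / (Y : ℝ) ^ b ≠ 1 →
      (q : ℝ) ^ (1 - ε) < |(X : ℝ) ^ a / (Y : ℝ) ^ b - 1| * (|(X : ℝ)| * |(Y : ℝ)|) := by
  classical
  have hf : ∀ x : ℕ, x.primeFactors ⊆ S → x.primeFactors ⊆ S.filter Nat.Prime := fun x hx p hp =>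
    Finset.mem_filter.2 ⟨hx hp, Nat.prime_of_mem_primeFactors hp⟩
  obtain ⟨η, N, hη, h⟩ := Pool.Agent.Q4.Hyp.pair_main (S.filter Nat.Prime)
    (fun p hp => (Finset.mem_filter.1 hp).2) halg hind (P := P) (F := F) (j := j) ha hb hab
    (w := (onCurve a b P).natDegree) rfl hP hw hF hj htop hε
  refine ⟨η, N, hη, fun q hq x hx X Y hX hY hXY hne => ?_⟩
  obtain ⟨u, w, h1, h2, h3⟩ := hx.1
  refine h q hq x ⟨⟨u, w, h1, hf _ h2, h3⟩, hx.2⟩ X Y hX hY hXY ?_
  intro h5
  apply hne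
  have h6 : (X : ℝ) ^ a = (Y : ℝ) ^ b := by exact_mod_cast h5
  rw [h6]
  have h7 : (Y : ℝ) ≠ 0 := by exact_mod_cast hY
  exact div_self (pow_ne_zero _ h7)

end Pool.Agent.Results.MP_4eb8d9_nt.PairsNearRays
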