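import Mathlib
import Pool.Agent.Q4.Hall.PotMain

set_option autoImplicit false

/-!
# The inequality of Lang and Waldschmidt for an integer and the values of polynomials near a ray

`Λ = y ^ b ∏ Fᵢ(x) ^ eᵢ`, where `x` is an integral point near the ray spanned by `(1, θ₁, …, θₙ)`, for
algebraic numbers `θᵢ`, the `Fᵢ` are polynomials and `y` is an arbitrary integer.
-/

namespace Pool.Agent.Results.MP_4eb8d9_nt.PowerProductsNearRays

open MvPolynomial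

/-- the point `(q, x₁, …, xₙ)`; the variable `none` is the one of `q` -/
def point {n : ℕ} (q : ℕ) (x : Fin n → ℤ) : Option (Fin n) → ℤ := fun o => o.elim (q : ℤ) x

/-- the integral points `(q, x₁, …, xₙ)` near the ray spanned by `(1, θ₁, …, θₙ)`: `q = u w` where `u`
is composed of primes of `S` and `w ≤ q ^ η`, and `|θₛ q - xₛ| ≤ q ^ η` for all `s` -/
def NearRay {n : ℕ} (S : Finset ℕ) (θ : Fin n → ℝ) (η : ℝ) (q : ℕ) (x : Fin n → ℤ) : Prop :=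
  (∃ u w : ℕ, q = u * w ∧ u.primeFactors ⊆ S ∧ (w : ℝ) ≤ (q : ℝ) ^ η) ∧
  ∀ s, |θ s * q - x s| ≤ (q : ℝ) ^ η

/-- the value at `(1, θ)` of the homogeneous part of degree `m` -/
noncomputable def atInfinity {n : ℕ} (θ : Fin n → ℝ) (m : ℕ) (F : MvPolynomial (Option (Fin n)) ℤ) : ℝ :=
  aeval (fun o : Option (Fin n) => (o.elim 1 θ : ℝ)) (homogeneousComponent m F)

/-- Let `1, θ₁, …, θₙ` be real algebraic numbers, linearly independent over `ℚ`, and `S` a finite set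
of primes. Let `Fᵢ ∈ ℤ[X₀, …, Xₙ]` have degree at most `Dᵢ`, with homogeneous part of degree `Dᵢ` not
vanishing at `(1, θ)`, not all `Dᵢ` zero, and let `eᵢ ≠ 0` be integers, `b > 0` and `E ≥ 0` integers
with `b E + ∑ eᵢ Dᵢ = 0`. For every `ε > 0` there are `η > 0` and `N` such that for all integral
points `x = (q, x₁, …, xₙ)` near the ray with `q ≥ N` and all integers `y ≠ 0` with
`Λ = y ^ b ∏ Fᵢ(x) ^ eᵢ ≠ 1`: `|Λ - 1| |y| ∏ |Fᵢ(x)| > q ^ (1 - ε)`. -/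
theorem result (n : ℕ) (θ : Fin n → ℝ) (halg : ∀ s, IsAlgebraic ℚ (θ s))
    (hind : LinearIndependent ℚ (fun o : Option (Fin n) => (o.elim 1 θ : ℝ))) (S : Finset ℕ)
    (k : ℕ) (F : Fin k → MvPolynomial (Option (Fin n)) ℤ) (D : Fin k → ℕ) (e : Fin k → ℤ)
    (hF : ∀ i, (F i).totalDegree ≤ D i) (htop : ∀ i, atInfinity θ (D i) (F i) ≠ 0)
    (he : ∀ i, e i ≠ 0) (hD : ∃ i, D i ≠ 0) (b E : ℕ) (hb : 0 < b)
    (hE : (b : ℤ) * E + ∑ i, e i * D i = 0) (ε : ℝ) (hε : 0 < ε) :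
    ∃ (η : ℝ) (N : ℕ), 0 < η ∧ ∀ q ≥ N, ∀ x, NearRay S θ η q x → ∀ y : ℤ, y ≠ 0 →
      (y : ℝ) ^ b * ∏ i, ((eval (point q x) (F i) : ℤ) : ℝ) ^ (e i) ≠ 1 →
      (q : ℝ) ^ (1 - ε) < |(y : ℝ) ^ b * ∏ i, ((eval (point q x) (F i) : ℤ) : ℝ) ^ (e i) - 1|
        * (|(y : ℝ)| * ∏ i, |((eval (point q x) (F i) : ℤ) : ℝ)|) := by
  classical
  have hf : ∀ x : ℕ, x.primeFactors ⊆ S → x.primeFactors ⊆ S.filter Nat.Prime := fun x hx p hp =>
    Finset.mem_filter.2 ⟨hx hp, Nat.prime_of_mem_primeFactors hp⟩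
  obtain ⟨η, N, hη, h⟩ := Pool.Agent.Q4.Hall.lw_mainT (S.filter Nat.Prime)
    (fun p hp => (Finset.mem_filter.1 hp).2) halg hind F D e hF htop he (by
      obtain ⟨i, hi⟩ := hD
      exact (Nat.one_le_iff_ne_zero.2 hi).trans
        (Finset.single_le_sum (f := D) (fun j _ => Nat.zero_le _) (Finset.mem_univ i))) hb hE hε
  refine ⟨η, N, hη, fun q hq x hx y hy h1 => ?_⟩
  obtain ⟨u, w, h2, h3, h4⟩ := hx.1
  exact h q hq x ⟨⟨u, w, h2, hf _ h3, h4⟩, hx.2⟩ y hy h1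

end Pool.Agent.Results.MP_4eb8d9_nt.PowerProductsNearRays
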