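import Pool.Agent.Results.MP_4eb8d9_nt.FewExceptions
import Pool.Agent.Q21.DW.Cnt

/-!
# The Lang–Waldschmidt inequality for all products of random height

`RandomReals θ G` (see `Pool.Agent.Q21.DW.Real`) says that the property `G` of natural numbers holds for ALL numbers read
off from long windows of digits of almost every real number (in every base `g`, windows of length `k` at all positions up
to `g ^ (κ k)`, `κ < 1 - θ`), with exceptional sets of Hausdorff dimension at most `(θ + η) / (1 + η)` for the positions up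
to `η k`; and for ALL `m` with `|m - α v_k| ≤ w_k`, `k` large, for all `α > 0` outside a set of `s`-dimensional measure
zero, if `∑ v_k ^ t (w_k / v_k) ^ s` converges for some `t > θ`.

With `θ = 1 / 2` the following is such a property of `h`: all products `Λ = a_1 ^ b_1 ⋯ a_m ^ b_m ≠ 1` of any number of
powers of nonzero integers (with nonzero exponents of any size) which are rational numbers of height `h` satisfy
`|Λ - 1| ≥ max |b_i| / (∏ |b_i| |a_i|) ^ (1 + ε)` for all `ε ≥ 0`, that is, the inequality of the question with the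
constant `C(ε) = 1`, and even with `ε = 0`.
-/

set_option autoImplicit false

namespace Pool.Agent.Results.MP_4eb8d9_nt.RandomHeights

/-- the height `max (|P|, Q)` of the rational number `P / Q` in lowest terms -/
def height (L : ℚ) : ℕ := max L.num.natAbs L.den

/-- For all `ε ≥ 0` and all representations `L = ∏ a_i ^ b_i`, with any number of factors, by
nonzero integers `a_i`, `b_i`, the inequality of Lang and Waldschmidt holds with the constant `1` -/
def Holds (L : ℚ) : Prop :=
  ∀ (ε : ℝ) (m : ℕ) (a b : Fin m → ℤ), 0 ≤ ε → (∀ i, a i ≠ 0) → (∀ i, b i ≠ 0) →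
    ∏ i, ((a i : ℚ) ^ (b i)) = L →
    ((Finset.univ.sup fun i => (b i).natAbs : ℕ) : ℝ) /
      ((∏ i, |((b i : ℤ) : ℝ)|) * (∏ i, |((a i : ℤ) : ℝ)|)) ^ (1 + ε) ≤ |(L : ℝ) - 1|

/-- **Theorem.** The inequality of Lang and Waldschmidt, with `C(ε) = 1` and all `ε ≥ 0`, holds for all products
`Λ ≠ 1` of powers of integers whose height is random (`RandomReals`) with the exponent `1 / 2`. -/
theorem result : Pool.Agent.Q21.DW.RandomReals (1 / 2)
    (fun (_ : Unit) (h : ℕ) => ∀ L : ℚ, L ≠ 1 → height L = h → Holds L) := by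
  refine Pool.Agent.Q21.DW.randomReals_of (B := fun (_ : Unit) (h : ℕ) => ∃ L : ℚ, L ≠ 1 ∧ height L = h ∧
    FewExceptions.Fails L) (by norm_num) (by norm_num) (fun _ => ?_) ?_
  · refine Pool.Agent.Q21.DW.ps_of (T := ℚ) (fun X => FewExceptions.Exceptional X) height _ _ ?_ ?_
    · intro ε hε
      obtain ⟨C, hC⟩ := FewExceptions.result ε hε
      exact ⟨C, hC⟩
    · rintro h N hh hhN ⟨L, hL, hLh, hF⟩
      refine ⟨L, ⟨hL, ?_, ?_, hF⟩, hLh⟩
      · exact (le_max_left _ _).trans (hLh.le.trans hhN)
      · exact (le_max_right _ _).trans (hLh.le.trans hhN)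
  · intro _ h _ hB L hL hLh ε m a b hε ha hb hab
    by_contra hcon
    exact hB ⟨L, hL, hLh, ε, m, a, b, hε, ha, hb, hab, not_le.1 hcon⟩

end Pool.Agent.Results.MP_4eb8d9_nt.RandomHeights
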